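import Mathlib

namespace Pool.Agent.Lib.MP_377342_al

open Matrix Quaternion

/-- Right `ℍ`-subspaces of the column space `ℍ^{n×1}`. -/
abbrev RSub (n : ℕ) : Type := Submodule (ℍ[ℝ])ᵐᵒᵖ (Fin n → ℍ[ℝ])

/-- `x^* G y`. -/
noncomputable def form {n : ℕ} (G : Matrix (Fin n) (Fin n) ℍ[ℝ]) (x y : Fin n → ℍ[ℝ]) : ℍ[ℝ] :=
  star x ⬝ᵥ (G *ᵥ y)

/-- `M` is `G`-neutral. -/
def Neutral {n : ℕ} (G : Matrix (Fin n) (Fin n) ℍ[ℝ]) (M : RSub n) : Prop :=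
  ∀ x ∈ M, ∀ y ∈ M, form G x y = 0

/-- `M` is `G`-nonnegative: `x^* G x` is a real number `≥ 0` for all `x ∈ M`. -/
def Nonneg {n : ℕ} (G : Matrix (Fin n) (Fin n) ℍ[ℝ]) (M : RSub n) : Prop :=
  ∀ x ∈ M, ∃ r : ℝ, 0 ≤ r ∧ form G x x = (r : ℍ[ℝ])

/-- `M` is `G`-nonpositive: `x^* G x` is a real number `≤ 0` for all `x ∈ M`. -/
def Nonpos {n : ℕ} (G : Matrix (Fin n) (Fin n) ℍ[ℝ]) (M : RSub n) : Prop :=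
  ∀ x ∈ M, ∃ r : ℝ, r ≤ 0 ∧ form G x x = (r : ℍ[ℝ])

/-- `M` is `A`-invariant. -/
def Invariant {n : ℕ} (A : Matrix (Fin n) (Fin n) ℍ[ℝ]) (M : RSub n) : Prop :=
  ∀ x ∈ M, A *ᵥ x ∈ M

/-- The eigenvalues of `A` restricted to `M`: the `c` with `A x = x c` for a nonzero `x ∈ M`. -/
def eigs {n : ℕ} (A : Matrix (Fin n) (Fin n) ℍ[ℝ]) (M : RSub n) : Set ℍ[ℝ] :=
  {c | ∃ x ∈ M, x ≠ 0 ∧ A *ᵥ x = fun i => x i * c}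

/-- The eigenvalues of `A` restricted to `M` that have nonzero real part. -/
def offEigs {n : ℕ} (A : Matrix (Fin n) (Fin n) ℍ[ℝ]) (M : RSub n) : Set ℍ[ℝ] :=
  {c | c ∈ eigs A M ∧ c.re ≠ 0}

/-- Sets of eigenvalues of `A` with the first three properties of a c-set. -/
def PreCSet {n : ℕ} (A : Matrix (Fin n) (Fin n) ℍ[ℝ]) (S : Set ℍ[ℝ]) : Prop :=
  S ⊆ eigs A ⊤ ∧ (∀ c ∈ S, c.re ≠ 0) ∧ (∀ c ∈ S, ∀ q : ℍ[ℝ], q ≠ 0 → q⁻¹ * c * q ∈ S) ∧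
    (∀ c ∈ S, -c ∉ S)

end Pool.Agent.Lib.MP_377342_al
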