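import Mathlib
import Pool.Agent.Lib.MP_377342_al.Defs

namespace Pool.Agent.Lib.MP_377342_al

open Matrix Quaternion MulOpposite

variable {n : ℕ}

theorem op_smul_apply (q : ℍ[ℝ]) (x : Fin n → ℍ[ℝ]) (i : Fin n) : (op q • x) i = x i * q := rfl

theorem mulVec_op_smul (A : Matrix (Fin n) (Fin n) ℍ[ℝ]) (q : ℍ[ℝ]) (x : Fin n → ℍ[ℝ]) :
    A *ᵥ (op q • x) = op q • (A *ᵥ x) := by
  funext i
  simp [mulVec, dotProduct, Finset.sum_mul, mul_assoc]

theorem form_eq_sum (G : Matrix (Fin n) (Fin n) ℍ[ℝ]) (x y : Fin n → ℍ[ℝ]) :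
    form G x y = ∑ i, ∑ j, star (x i) * G i j * y j := by
  simp [form, mulVec, dotProduct, Finset.mul_sum, mul_assoc]

theorem form_add_left (G : Matrix (Fin n) (Fin n) ℍ[ℝ]) (x x' y : Fin n → ℍ[ℝ]) :
    form G (x + x') y = form G x y + form G x' y := by
  simp [form, add_dotProduct]

theorem form_add_right (G : Matrix (Fin n) (Fin n) ℍ[ℝ]) (x y y' : Fin n → ℍ[ℝ]) :
    form G x (y + y') = form G x y + form G x y' := by
  simp [form, mulVec_add, dotProduct_add]

theorem form_sub_left (G : Matrix (Fin n) (Fin n) ℍ[ℝ]) (x x' y : Fin n → ℍ[ℝ]) :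
    form G (x - x') y = form G x y - form G x' y := by
  simp [form, sub_dotProduct]

theorem form_sub_right (G : Matrix (Fin n) (Fin n) ℍ[ℝ]) (x y y' : Fin n → ℍ[ℝ]) :
    form G x (y - y') = form G x y - form G x y' := by
  simp [form, mulVec_sub, dotProduct_sub]

@[simp] theorem form_zero_left (G : Matrix (Fin n) (Fin n) ℍ[ℝ]) (y : Fin n → ℍ[ℝ]) :
    form G 0 y = 0 := by simp [form]

@[simp] theorem form_zero_right (G : Matrix (Fin n) (Fin n) ℍ[ℝ]) (x : Fin n → ℍ[ℝ]) :
    form G x 0 = 0 := by simp [form]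

theorem form_smul_left (G : Matrix (Fin n) (Fin n) ℍ[ℝ]) (q : ℍ[ℝ]) (x y : Fin n → ℍ[ℝ]) :
    form G (op q • x) y = star q * form G x y := by
  simp [form_eq_sum, Finset.mul_sum, mul_assoc]

theorem form_smul_right (G : Matrix (Fin n) (Fin n) ℍ[ℝ]) (q : ℍ[ℝ]) (x y : Fin n → ℍ[ℝ]) :
    form G x (op q • y) = form G x y * q := by
  simp [form_eq_sum, Finset.sum_mul, mul_assoc]

theorem form_neg (G : Matrix (Fin n) (Fin n) ℍ[ℝ]) (x y : Fin n → ℍ[ℝ]) :
    form (-G) x y = -form G x y := by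
  simp [form, neg_mulVec]

theorem star_form {G : Matrix (Fin n) (Fin n) ℍ[ℝ]} (hG : Gᴴ = G) (x y : Fin n → ℍ[ℝ]) :
    star (form G x y) = form G y x := by
  rw [form_eq_sum, form_eq_sum, Finset.sum_comm]
  simp only [star_sum, star_mul, star_star]
  refine Finset.sum_congr rfl fun i _ => Finset.sum_congr rfl fun j _ => ?_
  have : star (G j i) = G i j := by
    have := congrFun (congrFun hG i) j
    simpa [conjTranspose_apply] using this
  rw [this, mul_assoc]

theorem form_comm_zero {G : Matrix (Fin n) (Fin n) ℍ[ℝ]} (hG : Gᴴ = G) {x y : Fin n → ℍ[ℝ]}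
    (h : form G x y = 0) : form G y x = 0 := by
  rw [← star_form hG, h, star_zero]

theorem form_self_real {G : Matrix (Fin n) (Fin n) ℍ[ℝ]} (hG : Gᴴ = G) (x : Fin n → ℍ[ℝ]) :
    form G x x = ((form G x x).re : ℍ[ℝ]) := by
  have h := star_form hG x x
  exact Quaternion.star_eq_self.1 h

theorem form_mulVec_left {G A : Matrix (Fin n) (Fin n) ℍ[ℝ]} (hA : Aᴴ * G = -(G * A))
    (x y : Fin n → ℍ[ℝ]) : form G (A *ᵥ x) y = -form G x (A *ᵥ y) := by
  unfold form
  rw [star_mulVec, ← dotProduct_mulVec, mulVec_mulVec, hA, neg_mulVec, dotProduct_neg,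
    mulVec_mulVec]

theorem nonneg_iff {G : Matrix (Fin n) (Fin n) ℍ[ℝ]} (hG : Gᴴ = G) (M : RSub n) :
    Nonneg G M ↔ ∀ x ∈ M, 0 ≤ (form G x x).re := by
  constructor
  · intro h x hx
    obtain ⟨r, hr, e⟩ := h x hx
    simpa [e] using hr
  · intro h x hx
    exact ⟨_, h x hx, form_self_real hG x⟩

theorem nonpos_iff_nonneg_neg (G : Matrix (Fin n) (Fin n) ℍ[ℝ]) : Nonpos G = Nonneg (-G) := by
  funext M
  apply propext
  constructor
  · intro h x hx
    obtain ⟨r, hr, e⟩ := h x hx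
    exact ⟨-r, by linarith, by rw [form_neg, e]; simp⟩
  · intro h x hx
    obtain ⟨r, hr, e⟩ := h x hx
    refine ⟨-r, by linarith, ?_⟩
    rw [form_neg, neg_eq_iff_eq_neg] at e
    rw [e]; simp

/-- Expansion of the quadratic form. -/
theorem form_expand {G : Matrix (Fin n) (Fin n) ℍ[ℝ]} (hG : Gᴴ = G) (x y : Fin n → ℍ[ℝ])
    (q : ℍ[ℝ]) :
    (form G (x + op q • y) (x + op q • y)).re =
      (form G x x).re + 2 * (form G x y * q).re + normSq q * (form G y y).re := by
  rw [form_add_left, form_add_right, form_add_right, form_smul_left, form_smul_right,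
    form_smul_left, form_smul_right, ← star_form hG x y, ← star_mul]
  have e : star q * (form G y y * q) = ((normSq q * (form G y y).re : ℝ) : ℍ[ℝ]) := by
    rw [form_self_real hG y, ← mul_assoc, ← Quaternion.coe_commutes, mul_assoc,
      Quaternion.star_mul_self]
    simp [mul_comm]
  rw [e]
  simp only [Quaternion.re_add, Quaternion.re_star, Quaternion.re_coe]
  ring

theorem normSq_pos_of_ne {c : ℍ[ℝ]} (h : c ≠ 0) : 0 < normSq c :=
  lt_of_le_of_ne normSq_nonneg (fun e => h (normSq_eq_zero.1 e.symm))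

/-- A neutral vector of a nonnegative subspace is orthogonal to it. -/
theorem orth_of_neutral {G : Matrix (Fin n) (Fin n) ℍ[ℝ]} (hG : Gᴴ = G) {M : RSub n}
    (hM : Nonneg G M) {x y : Fin n → ℍ[ℝ]} (hx : x ∈ M) (hy : y ∈ M)
    (h0 : (form G y y).re = 0) : form G x y = 0 := by
  rw [nonneg_iff hG] at hM
  by_contra hne
  set c := form G x y with hc
  have hpos : 0 < normSq c := normSq_pos_of_ne hne
  set t : ℝ := ((form G x x).re + 1) / (2 * normSq c) with ht
  have h := hM (x + op (-(star c * (t : ℍ[ℝ]))) • y) (M.add_mem hx (M.smul_mem _ hy))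
  rw [form_expand hG, h0, ← hc] at h
  have e : (c * -(star c * (t : ℍ[ℝ]))).re = -(normSq c * t) := by
    rw [mul_neg, ← mul_assoc, Quaternion.self_mul_star]
    simp
  rw [e] at h
  have e2 : normSq c * t = ((form G x x).re + 1) / 2 := by
    rw [ht]; field_simp
  rw [e2] at h
  linarith

end Pool.Agent.Lib.MP_377342_al
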