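import Mathlib
import Pool.Agent.Lib.MP_377342_al.Basic

namespace Pool.Agent.Lib.MP_377342_al

open Matrix Quaternion MulOpposite

variable {n : ℕ}

/-- The map `x ↦ A x - x c`. -/
noncomputable def shift (A : Matrix (Fin n) (Fin n) ℍ[ℝ]) (c : ℍ[ℝ]) (x : Fin n → ℍ[ℝ]) :
    Fin n → ℍ[ℝ] := A *ᵥ x - op c • x

/-- Generalized eigenvectors. -/
def GenEig (A : Matrix (Fin n) (Fin n) ℍ[ℝ]) (c : ℍ[ℝ]) (x : Fin n → ℍ[ℝ]) : Prop :=
  ∃ k : ℕ, (shift A c)^[k] x = 0

/-- The column space as a complex vector space. -/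
def VC (n : ℕ) : Type := Fin n → ℍ[ℝ]

noncomputable instance : AddCommGroup (VC n) := inferInstanceAs (AddCommGroup (Fin n → ℍ[ℝ]))

noncomputable instance : Module ℝ (VC n) := inferInstanceAs (Module ℝ (Fin n → ℍ[ℝ]))

instance : Module.Finite ℝ (VC n) := inferInstanceAs (Module.Finite ℝ (Fin n → ℍ[ℝ]))

/-- Complex numbers acting on the right. -/
noncomputable def cop : ℂ →+* (ℍ[ℝ])ᵐᵒᵖ where
  toFun z := op (z : ℍ[ℝ])
  map_one' := by simp
  map_mul' z w := by
    rw [← op_mul, ← Quaternion.coeComplex_mul, mul_comm]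
  map_zero' := by simp
  map_add' z w := by simp

noncomputable instance : Module ℂ (VC n) := Module.compHom (Fin n → ℍ[ℝ]) cop

theorem VC_smul (z : ℂ) (x : VC n) :
    z • x = (op (z : ℍ[ℝ]) • (show Fin n → ℍ[ℝ] from x) : Fin n → ℍ[ℝ]) := rfl

instance : IsScalarTower ℝ ℂ (VC n) where
  smul_assoc r z x := by
    have e : ∀ a : ℍ[ℝ], a * ((r • z : ℂ) : ℍ[ℝ]) = r • (a * (z : ℍ[ℝ])) := by
      intro a
      ext <;> simp <;> ring
    funext i
    exact e _

instance : Module.Finite ℂ (VC n) := Module.Finite.of_restrictScalars_finite ℝ ℂ (VC n)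

/-- `A` as a complex linear map. -/
noncomputable def linC (A : Matrix (Fin n) (Fin n) ℍ[ℝ]) : Module.End ℂ (VC n) where
  toFun x := A *ᵥ (show Fin n → ℍ[ℝ] from x)
  map_add' _ _ := mulVec_add A _ _
  map_smul' _ _ := mulVec_op_smul A _ _

/-- A right subspace as a complex subspace. -/
def subC (N : RSub n) : Submodule ℂ (VC n) where
  carrier := {x | (show Fin n → ℍ[ℝ] from x) ∈ N}
  add_mem' ha hb := N.add_mem ha hb
  zero_mem' := N.zero_mem
  smul_mem' _ _ hx := N.smul_mem _ hx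

theorem decomp {A : Matrix (Fin n) (Fin n) ℍ[ℝ]} {N : RSub n} (hN : Invariant A N)
    (P : (Fin n → ℍ[ℝ]) → Prop) (h0 : P 0) (hadd : ∀ x y, P x → P y → P (x + y))
    (h : ∀ c : ℍ[ℝ], ∀ x ∈ N, GenEig A c x → P x) : ∀ x ∈ N, P x := by
  intro x hx
  have hdec := Submodule.eq_iSup_inf_genEigenspace (p := subC N) (f := linC A) ⊤
    (fun x hx => hN x hx) (Module.End.iSup_maxGenEigenspace_eq_top (linC A))
  have hx' : (show VC n from x) ∈ subC N := hx
  rw [hdec] at hx'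
  refine Submodule.iSup_induction (motive := fun y : VC n => P y) _ hx' ?_ h0 hadd
  intro z y hy
  refine h (z : ℍ[ℝ]) y hy.1 ?_
  obtain ⟨k, hk⟩ := (Module.End.mem_maxGenEigenspace (linC A) z y).1 hy.2
  refine ⟨k, ?_⟩
  rw [Module.End.pow_apply] at hk
  exact hk

end Pool.Agent.Lib.MP_377342_al
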