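import Mathlib
import Pool.Agent.Lib.MP_377342_al.Decomp

namespace Pool.Agent.Lib.MP_377342_al

open Matrix Quaternion MulOpposite

variable {n : ℕ}

/-- The `G`-orthogonal companion. -/
def perp (G : Matrix (Fin n) (Fin n) ℍ[ℝ]) (U : RSub n) : RSub n where
  carrier := {x | ∀ u ∈ U, form G u x = 0}
  add_mem' ha hb u hu := by rw [form_add_right, ha u hu, hb u hu, add_zero]
  zero_mem' u _ := form_zero_right G u
  smul_mem' c x hx u hu := by
    have := form_smul_right G (unop c) u x
    rw [op_unop] at this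
    rw [this, hx u hu, zero_mul]

theorem mem_perp {G : Matrix (Fin n) (Fin n) ℍ[ℝ]} {U : RSub n} {x : Fin n → ℍ[ℝ]} :
    x ∈ perp G U ↔ ∀ u ∈ U, form G u x = 0 := Iff.rfl

theorem perp_invariant {G A : Matrix (Fin n) (Fin n) ℍ[ℝ]} (hA : Aᴴ * G = -(G * A))
    {U : RSub n} (hU : Invariant A U) : Invariant A (perp G U) := by
  intro x hx u hu
  have := form_mulVec_left hA u x
  rw [hx _ (hU u hu)] at this
  exact neg_eq_zero.1 this.symm

/-- The real part of the form, as a real bilinear form. -/
noncomputable def reForm (G : Matrix (Fin n) (Fin n) ℍ[ℝ]) :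
    LinearMap.BilinForm ℝ (Fin n → ℍ[ℝ]) :=
  LinearMap.mk₂ ℝ (fun x y => (form G x y).re)
    (fun x x' y => by rw [form_add_left]; simp)
    (fun r x y => by
      have e : r • x = op (r : ℍ[ℝ]) • x := by
        funext i; exact (Quaternion.mul_coe_eq_smul r _).symm
      rw [e, form_smul_left]; simp)
    (fun x y y' => by rw [form_add_right]; simp)
    (fun r x y => by
      have e : r • y = op (r : ℍ[ℝ]) • y := by
        funext i; exact (Quaternion.mul_coe_eq_smul r _).symm
      rw [e, form_smul_right]; simp [mul_comm])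

theorem reForm_apply (G : Matrix (Fin n) (Fin n) ℍ[ℝ]) (x y : Fin n → ℍ[ℝ]) :
    reForm G x y = (form G x y).re := rfl

theorem orth_eq_perp (G : Matrix (Fin n) (Fin n) ℍ[ℝ]) (U : RSub n) :
    (reForm G).orthogonal (U.restrictScalars ℝ) = (perp G U).restrictScalars ℝ := by
  ext x
  rw [LinearMap.BilinForm.mem_orthogonal_iff]
  constructor
  · intro h u hu
    have := h (op (form G u x) • u) (U.smul_mem _ hu)
    rw [reForm_apply, form_smul_left, Quaternion.star_mul_self] at this
    exact normSq_eq_zero.1 (by simpa using this)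
  · intro h u hu
    rw [reForm_apply, h u hu]
    rfl

theorem perp_perp {G : Matrix (Fin n) (Fin n) ℍ[ℝ]} (hG : Gᴴ = G) {U : RSub n}
    (hU : perp G ⊤ ≤ U) : perp G (perp G U) = U := by
  have hrefl : (reForm G).IsRefl := by
    intro x y h
    rw [reForm_apply] at h ⊢
    rw [← star_form hG, Quaternion.re_star, h]
  have h1 := LinearMap.BilinForm.finrank_add_finrank_orthogonal hrefl (U.restrictScalars ℝ)
  have h2 := LinearMap.BilinForm.finrank_add_finrank_orthogonal hrefl
    ((perp G U).restrictScalars ℝ)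
  have ht : (reForm G).orthogonal ⊤ = (perp G ⊤).restrictScalars ℝ := orth_eq_perp G ⊤
  rw [orth_eq_perp, ht] at h1 h2
  have e1 : U.restrictScalars ℝ ⊓ (perp G ⊤).restrictScalars ℝ = (perp G ⊤).restrictScalars ℝ :=
    inf_eq_right.2 hU
  have e2 : (perp G U).restrictScalars ℝ ⊓ (perp G ⊤).restrictScalars ℝ =
      (perp G ⊤).restrictScalars ℝ :=
    inf_eq_right.2 (fun x hx u _ => hx u trivial)
  rw [e1] at h1
  rw [e2] at h2
  have hle : U.restrictScalars ℝ ≤ (perp G (perp G U)).restrictScalars ℝ :=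
    fun x hx u hu => form_comm_zero hG (hu x hx)
  have := Submodule.eq_of_le_of_finrank_le hle (by omega)
  exact (Submodule.restrictScalars_injective ℝ _ _ this).symm

theorem mem_sup_span {L : RSub n} {x y : Fin n → ℍ[ℝ]}
    (hy : y ∈ L ⊔ Submodule.span (ℍ[ℝ])ᵐᵒᵖ {x}) : ∃ l ∈ L, ∃ q : ℍ[ℝ], y = l + op q • x := by
  obtain ⟨l, hl, z, hz, rfl⟩ := Submodule.mem_sup.1 hy
  obtain ⟨c, rfl⟩ := Submodule.mem_span_singleton.1 hz
  exact ⟨l, hl, unop c, rfl⟩

/-- Admissible pairs. -/
def Good (G A : Matrix (Fin n) (Fin n) ℍ[ℝ]) (N : RSub n) (p : RSub n × RSub n) : Prop :=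
  N ≤ p.1 ∧ Invariant A p.1 ∧ Nonneg G p.1 ∧ (∀ y ∈ p.2, y ≠ 0 → (form G y y).re < 0) ∧
    (∀ x ∈ p.1, ∀ y ∈ p.2, form G x y = 0) ∧ (∀ y ∈ p.2, A *ᵥ y ∈ p.1 ⊔ p.2)

theorem exists_max {G A : Matrix (Fin n) (Fin n) ℍ[ℝ]} (hG : Gᴴ = G) (hA : Aᴴ * G = -(G * A))
    {N : RSub n} (hN : Invariant A N) (hN0 : Neutral G N) :
    ∃ L : RSub n, N ≤ L ∧ Invariant A L ∧ Maximal (Nonneg G) L := by
  have h0 : Good G A N (N, ⊥) := by
    refine ⟨le_rfl, hN, fun x hx => ⟨0, le_rfl, by simp [hN0 x hx x hx]⟩, ?_, ?_, ?_⟩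
    · intro y hy hne; exact absurd ((Submodule.mem_bot _).1 hy) hne
    · intro x _ y hy; rw [(Submodule.mem_bot _).1 hy]; simp
    · intro y hy; rw [(Submodule.mem_bot _).1 hy]; simp
  have : IsNoetherian (ℍ[ℝ])ᵐᵒᵖ (Fin n → ℍ[ℝ]) := isNoetherian_of_tower ℝ inferInstance
  obtain ⟨⟨L, K⟩, hmax⟩ := exists_maximal_of_wellFoundedGT (Good G A N) ⟨_, h0⟩
  obtain ⟨hNL, hLi, hLn, hKn, hLK, hKi⟩ := hmax.1
  dsimp only at hNL hLi hLn hKn hLK hKi
  have hUi : Invariant A (L ⊔ K) := by
    intro u hu
    obtain ⟨l, hl, k, hk, rfl⟩ := Submodule.mem_sup.1 hu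
    rw [mulVec_add]
    exact Submodule.add_mem _ (Submodule.mem_sup_left (hLi l hl)) (hKi k hk)
  have hWi : Invariant A (perp G (L ⊔ K)) := perp_invariant hA hUi
  have key : ∀ c : ℍ[ℝ], ∀ x ∈ perp G (L ⊔ K), shift A c x ∈ L → x ∈ L := by
    intro c x hx hs
    have hAx : A *ᵥ x = shift A c x + op c • x := by simp [shift]
    have hxs : x ∈ Submodule.span (ℍ[ℝ])ᵐᵒᵖ {x} := Submodule.mem_span_singleton_self x
    rcases le_or_gt 0 (form G x x).re with hpos | hneg
    · have hg : Good G A N (L ⊔ Submodule.span (ℍ[ℝ])ᵐᵒᵖ {x}, K) := by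
        refine ⟨le_sup_of_le_left hNL, ?_, ?_, hKn, ?_, ?_⟩
        · intro y hy
          obtain ⟨l, hl, q, rfl⟩ := mem_sup_span hy
          rw [mulVec_add, mulVec_op_smul, hAx]
          refine Submodule.add_mem _ (Submodule.mem_sup_left (hLi l hl))
            (Submodule.smul_mem _ _ (Submodule.add_mem _ (Submodule.mem_sup_left hs)
              (Submodule.smul_mem _ _ (Submodule.mem_sup_right hxs))))
        · rw [nonneg_iff hG]
          intro y hy
          obtain ⟨l, hl, q, rfl⟩ := mem_sup_span hy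
          rw [form_expand hG, hx l (Submodule.mem_sup_left hl)]
          have h1 := (nonneg_iff hG L).1 hLn l hl
          have h2 : 0 ≤ normSq q * (form G x x).re := mul_nonneg normSq_nonneg hpos
          simp only [zero_mul, Quaternion.re_zero, mul_zero, add_zero]
          linarith
        · intro y hy k hk
          obtain ⟨l, hl, q, rfl⟩ := mem_sup_span hy
          rw [form_add_left, form_smul_left, hLK l hl k hk,
            form_comm_zero hG (hx k (Submodule.mem_sup_right hk))]
          simp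
        · intro k hk
          exact (sup_le_sup_right le_sup_left K) (hKi k hk)
      have := hmax.2 hg ⟨le_sup_left, le_rfl⟩
      exact this.1 (Submodule.mem_sup_right hxs)
    · have hg : Good G A N (L, K ⊔ Submodule.span (ℍ[ℝ])ᵐᵒᵖ {x}) := by
        refine ⟨hNL, hLi, hLn, ?_, ?_, ?_⟩
        · intro y hy hne
          obtain ⟨k, hk, q, rfl⟩ := mem_sup_span hy
          rw [form_expand hG, hx k (Submodule.mem_sup_right hk)]
          simp only [zero_mul, Quaternion.re_zero, mul_zero, add_zero]
          by_cases hq : q = 0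
          · subst hq
            have : k ≠ 0 := by simpa using hne
            simpa using hKn k hk this
          · have h2 : normSq q * (form G x x).re < 0 :=
              mul_neg_of_pos_of_neg (normSq_pos_of_ne hq) hneg
            by_cases hk0 : k = 0
            · subst hk0; simpa using h2
            · have := hKn k hk hk0
              linarith
        · intro l hl y hy
          obtain ⟨k, hk, q, rfl⟩ := mem_sup_span hy
          rw [form_add_right, form_smul_right, hLK l hl k hk, hx l (Submodule.mem_sup_left hl)]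
          simp
        · intro y hy
          obtain ⟨k, hk, q, rfl⟩ := mem_sup_span hy
          rw [mulVec_add, mulVec_op_smul, hAx]
          refine Submodule.add_mem _ ((sup_le_sup_left le_sup_left L) (hKi k hk))
            (Submodule.smul_mem _ _ (Submodule.add_mem _ (Submodule.mem_sup_left hs)
              (Submodule.smul_mem _ _
                (Submodule.mem_sup_right (Submodule.mem_sup_right hxs)))))
      have := hmax.2 hg ⟨le_rfl, le_sup_left⟩
      have hxK : x ∈ K := this.2 (Submodule.mem_sup_right hxs)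
      have := hx x (Submodule.mem_sup_right hxK)
      rw [this] at hneg
      simp at hneg
  have hWL : perp G (L ⊔ K) ≤ L := by
    intro x hx
    refine decomp hWi (fun x => x ∈ L) L.zero_mem (fun _ _ => L.add_mem) ?_ x hx
    rintro c x hx ⟨k, hk⟩
    induction k generalizing x with
    | zero => rw [show x = 0 from hk]; exact L.zero_mem
    | succ k ih =>
      apply key c x hx
      refine ih _ ?_ hk
      exact Submodule.sub_mem _ (hWi x hx) (Submodule.smul_mem _ _ hx)
  refine ⟨L, hNL, hLi, hLn, fun M hM hLM m hm => ?_⟩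
  have hpp : perp G (perp G (L ⊔ K)) = L ⊔ K := by
    apply perp_perp hG
    intro x hx
    exact Submodule.mem_sup_left (hWL (fun u _ => hx u trivial))
  have hmU : m ∈ L ⊔ K := by
    rw [← hpp]
    intro w hw
    have hwL := hWL hw
    apply form_comm_zero hG
    apply orth_of_neutral hG hM hm (hLM hwL)
    rw [hw w (Submodule.mem_sup_left hwL)]
    rfl
  obtain ⟨l, hl, k, hk, rfl⟩ := Submodule.mem_sup.1 hmU
  have hkM : k ∈ M := by
    have := M.sub_mem hm (hLM hl)
    simpa using this
  by_cases hk0 : k = 0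
  · simpa [hk0] using hl
  · have h1 := hKn k hk hk0
    have h2 := (nonneg_iff hG M).1 hM k hkM
    linarith

end Pool.Agent.Lib.MP_377342_al
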