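import Mathlib
import Pool.Agent.Lib.MP_377342_al.Exist

namespace Pool.Agent.Lib.MP_377342_al

open Matrix Quaternion MulOpposite

variable {n : ℕ}

theorem re_conj (c q : ℍ[ℝ]) (hq : q ≠ 0) : (q⁻¹ * c * q).re = c.re := by
  have h : ∀ a b : ℍ[ℝ], (a * b).re = (b * a).re := by
    intro a b; simp only [Quaternion.re_mul]; ring
  rw [h, ← mul_assoc, mul_inv_cancel₀ hq, one_mul]

theorem star_similar (c : ℍ[ℝ]) : ∃ q : ℍ[ℝ], q ≠ 0 ∧ q⁻¹ * c * q = star c := by
  have key : ∀ q : ℍ[ℝ], q ≠ 0 → c * q = q * star c → ∃ q : ℍ[ℝ], q ≠ 0 ∧ q⁻¹ * c * q = star c := by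
    intro q hq h
    exact ⟨q, hq, by rw [mul_assoc, h, ← mul_assoc, inv_mul_cancel₀ hq, one_mul]⟩
  have mk : ∀ a b : ℝ, ∃ q : ℍ[ℝ], q.re = 0 ∧ q.imI = a ∧ q.imJ = b ∧ q.imK = 0 :=
    fun a b => ⟨⟨0, a, b, 0⟩, rfl, rfl, rfl, rfl⟩
  by_cases h : c.imI = 0 ∧ c.imJ = 0
  · obtain ⟨q, q1, q2, q3, q4⟩ := mk 1 0
    refine key q ?_ ?_
    · rintro rfl
      simp at q2
    · ext <;> simp [h.1, h.2, q1, q2, q3, q4]
  · obtain ⟨q, q1, q2, q3, q4⟩ := mk c.imJ (-c.imI)
    refine key q ?_ ?_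
    · rintro rfl
      apply h
      simp at q2 q3
      exact ⟨q3, q2.symm⟩
    · ext <;> simp [q1, q2, q3, q4] <;> ring

theorem shift_mulVec (A : Matrix (Fin n) (Fin n) ℍ[ℝ]) (c : ℍ[ℝ]) (x : Fin n → ℍ[ℝ]) :
    shift A c (A *ᵥ x) = A *ᵥ shift A c x := by
  simp [shift, mulVec_sub, mulVec_op_smul]

theorem GenEig.mulVec {A : Matrix (Fin n) (Fin n) ℍ[ℝ]} {c : ℍ[ℝ]} {x : Fin n → ℍ[ℝ]}
    (h : GenEig A c x) : GenEig A c (A *ᵥ x) := by
  obtain ⟨k, hk⟩ := h
  refine ⟨k, ?_⟩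
  have : ∀ (k : ℕ) (x : Fin n → ℍ[ℝ]), (shift A c)^[k] (A *ᵥ x) = A *ᵥ (shift A c)^[k] x := by
    intro k
    induction k with
    | zero => intro x; rfl
    | succ k ih => intro x; rw [Function.iterate_succ_apply, shift_mulVec, ih]; rfl
  rw [this, hk, mulVec_zero]

theorem genEig_of_eigen {A : Matrix (Fin n) (Fin n) ℍ[ℝ]} {c : ℍ[ℝ]} {x : Fin n → ℍ[ℝ]}
    (h : A *ᵥ x = fun i => x i * c) : GenEig A c x :=
  ⟨1, by
    show A *ᵥ x - op c • x = 0
    rw [h]; exact sub_self _⟩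

/-- Orthogonality of generalized eigenvectors. -/
theorem genEig_orth {G A : Matrix (Fin n) (Fin n) ℍ[ℝ]} (hA : Aᴴ * G = -(G * A)) {c d : ℍ[ℝ]}
    (hcd : ∀ q : ℍ[ℝ], star c * q + q * d = 0 → q = 0) {x y : Fin n → ℍ[ℝ]}
    (hx : GenEig A c x) (hy : GenEig A d y) : form G x y = 0 := by
  obtain ⟨k, hk⟩ := hx
  obtain ⟨l, hl⟩ := hy
  induction k generalizing x y l with
  | zero => rw [show x = 0 from hk]; simp
  | succ k ih =>
    induction l generalizing y with
    | zero => rw [show y = 0 from hl]; simp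
    | succ l ih2 =>
      have h1 : form G (shift A c x) y = 0 := ih hk (l + 1) hl
      have h2 : form G x (shift A d y) = 0 := ih2 hl
      rw [shift, form_sub_left, form_smul_left, form_mulVec_left hA] at h1
      rw [shift, form_sub_right, form_smul_right, sub_eq_zero] at h2
      apply hcd
      rw [← h2, ← neg_eq_zero, ← h1]
      abel

/-- A nonzero generalized eigenvector in an invariant subspace gives an eigenvalue. -/
theorem eig_of_genEig {A : Matrix (Fin n) (Fin n) ℍ[ℝ]} {N : RSub n} (hN : Invariant A N)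
    {c : ℍ[ℝ]} {x : Fin n → ℍ[ℝ]} (hxN : x ∈ N) (hx : GenEig A c x) (hne : x ≠ 0) :
    c ∈ eigs A N := by
  obtain ⟨k, hk⟩ := hx
  induction k generalizing x with
  | zero => exact absurd hk hne
  | succ k ih =>
    by_cases h : shift A c x = 0
    · exact ⟨x, hxN, hne, sub_eq_zero.1 h⟩
    · exact ih (N.sub_mem (hN x hxN) (N.smul_mem _ hxN)) h hk

theorem eigs_conj {A : Matrix (Fin n) (Fin n) ℍ[ℝ]} {M : RSub n} {c q : ℍ[ℝ]}
    (hc : c ∈ eigs A M) (hq : q ≠ 0) : q⁻¹ * c * q ∈ eigs A M := by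
  obtain ⟨x, hx, hne, e⟩ := hc
  refine ⟨op q • x, M.smul_mem _ hx, ?_, ?_⟩
  · intro h
    apply hne
    funext i
    have := congrFun h i
    rw [op_smul_apply] at this
    exact (mul_eq_zero.1 this).resolve_right hq
  · rw [mulVec_op_smul, e]
    funext i
    simp only [op_smul_apply]
    rw [← mul_assoc, ← mul_assoc, mul_assoc (x i) q, mul_inv_cancel₀ hq, mul_one]

theorem neg_mem_of_maximal {A : Matrix (Fin n) (Fin n) ℍ[ℝ]} {S : Set ℍ[ℝ]}
    (hS : Maximal (PreCSet A) S) {m : ℍ[ℝ]} (hm : m ∈ eigs A ⊤) (hre : m.re ≠ 0) (hmS : m ∉ S) :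
    -m ∈ S := by
  obtain ⟨h1, h2, h3, h4⟩ := hS.1
  by_contra hneg
  have back : ∀ q : ℍ[ℝ], q ≠ 0 → -(q⁻¹ * m * q) ∈ S → False := by
    intro q hq h
    apply hneg
    have := h3 _ h q⁻¹ (inv_ne_zero hq)
    rw [inv_inv, mul_neg, neg_mul, ← mul_assoc, ← mul_assoc, mul_inv_cancel₀ hq, one_mul,
      mul_assoc, mul_inv_cancel₀ hq, mul_one] at this
    exact this
  have hT : PreCSet A (S ∪ {t | ∃ q : ℍ[ℝ], q ≠ 0 ∧ t = q⁻¹ * m * q}) := by
    refine ⟨?_, ?_, ?_, ?_⟩
    · rintro t (ht | ⟨q, hq, rfl⟩)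
      · exact h1 ht
      · exact eigs_conj hm hq
    · rintro t (ht | ⟨q, hq, rfl⟩)
      · exact h2 t ht
      · rwa [re_conj _ _ hq]
    · rintro t (ht | ⟨q, hq, rfl⟩) p hp
      · exact Or.inl (h3 t ht p hp)
      · refine Or.inr ⟨q * p, mul_ne_zero hq hp, ?_⟩
        rw [_root_.mul_inv_rev]
        simp only [mul_assoc]
    · rintro t (ht | ⟨q, hq, rfl⟩) (ht' | ⟨p, hp, e⟩)
      · exact h4 t ht ht'
      · apply back p hp
        rw [← e, neg_neg]; exact ht
      · exact back q hq ht'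
      · have := congrArg QuaternionAlgebra.re e
        have e1 := re_conj m q hq
        have e2 := re_conj m p hp
        have e3 : (-(q⁻¹ * m * q)).re = -(q⁻¹ * m * q).re := rfl
        have e4 : (-(q⁻¹ * m * q)).re = (p⁻¹ * m * p).re := this
        apply hre
        linarith
  apply hmS
  exact hS.2 hT Set.subset_union_left (Or.inr ⟨1, one_ne_zero, by simp⟩)

theorem solve_sylv {c d q : ℍ[ℝ]} (hq : q ≠ 0) (h : star c * q + q * d = 0) :
    d = q⁻¹ * (-star c) * q := by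
  have : q * d = -star c * q := by rw [neg_mul]; exact eq_neg_of_add_eq_zero_right h
  rw [mul_assoc, ← this, ← mul_assoc, inv_mul_cancel₀ hq, one_mul]

theorem exists_max_spec {G A : Matrix (Fin n) (Fin n) ℍ[ℝ]} (hG : Gᴴ = G)
    (hA : Aᴴ * G = -(G * A)) (hker : ∀ y, G *ᵥ y = 0 → A *ᵥ y = 0)
    {N : RSub n} (hN : Invariant A N) (hN0 : Neutral G N) {S : Set ℍ[ℝ]}
    (hS : Maximal (PreCSet A) S) (hS0 : offEigs A N ⊆ S) :
    ∃ L : RSub n, N ≤ L ∧ Invariant A L ∧ Maximal (Nonneg G) L ∧ offEigs A L = S := by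
  obtain ⟨h1, h2, h3, h4⟩ := hS.1
  have hstar : ∀ c ∈ S, star c ∈ S := by
    intro c hc
    obtain ⟨q, hq, e⟩ := star_similar c
    rw [← e]; exact h3 c hc q hq
  set gens : Set (Fin n → ℍ[ℝ]) := {x | ∃ c ∈ S, GenEig A c x} with hgens
  set R : RSub n := Submodule.span (ℍ[ℝ])ᵐᵒᵖ gens with hR
  have hRi : Invariant A R := by
    intro x hx
    induction hx using Submodule.span_induction with
    | mem x hx =>
      obtain ⟨c, hc, hx⟩ := hx
      exact Submodule.subset_span ⟨c, hc, hx.mulVec⟩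
    | zero => rw [mulVec_zero]; exact R.zero_mem
    | add x y _ _ hx hy => rw [mulVec_add]; exact R.add_mem hx hy
    | smul a x _ hx =>
      have := mulVec_op_smul A (unop a) x
      rw [op_unop] at this
      rw [this]; exact R.smul_mem _ hx
  have orthR : ∀ x, (∀ y ∈ gens, form G x y = 0) → ∀ y ∈ R, form G x y = 0 := by
    intro x hx y hy
    induction hy using Submodule.span_induction with
    | mem y hy => exact hx y hy
    | zero => simp
    | add y z _ _ hy hz => rw [form_add_right, hy, hz, add_zero]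
    | smul a y _ hy =>
      have := form_smul_right G (unop a) x y
      rw [op_unop] at this
      rw [this, hy, zero_mul]
  have hgg : ∀ x ∈ gens, ∀ y ∈ gens, form G x y = 0 := by
    rintro x ⟨c, hc, hx⟩ y ⟨d, hd, hy⟩
    refine genEig_orth hA (fun q hq => ?_) hx hy
    by_contra hne
    have e := solve_sylv hne hq
    apply h4 _ (h3 _ (hstar c hc) q hne)
    rw [← neg_mul, ← mul_neg, ← e]; exact hd
  have hRR : ∀ x ∈ R, ∀ y ∈ R, form G x y = 0 := by
    intro x hx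
    apply orthR
    intro y hy
    exact form_comm_zero hG (orthR y (hgg y hy) x hx)
  have hNR : ∀ x ∈ N, ∀ y ∈ R, form G x y = 0 := by
    refine decomp hN (fun x => ∀ y ∈ R, form G x y = 0) (fun y _ => by simp)
      (fun x x' hx hx' y hy => by rw [form_add_left, hx y hy, hx' y hy, add_zero]) ?_
    intro c x hxN hx
    by_cases hx0 : x = 0
    · intro y _; simp [hx0]
    by_cases hc : c.re = 0
    · apply orthR
      rintro y ⟨d, hd, hy⟩
      refine genEig_orth hA (fun q hq => ?_) hx hy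
      by_contra hne
      apply h2 d hd
      rw [solve_sylv hne hq, re_conj _ _ hne]
      simp [hc]
    · exact hRR x (Submodule.subset_span ⟨c, hS0 ⟨eig_of_genEig hN hxN hx hx0, hc⟩, hx⟩)
  have hN'i : Invariant A (N ⊔ R) := by
    intro u hu
    obtain ⟨a, ha, b, hb, rfl⟩ := Submodule.mem_sup.1 hu
    rw [mulVec_add]
    exact Submodule.add_mem_sup (hN a ha) (hRi b hb)
  have hN'0 : Neutral G (N ⊔ R) := by
    intro u hu v hv
    obtain ⟨a, ha, b, hb, rfl⟩ := Submodule.mem_sup.1 hu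
    obtain ⟨a', ha', b', hb', rfl⟩ := Submodule.mem_sup.1 hv
    rw [form_add_left, form_add_right, form_add_right, hN0 a ha a' ha', hNR a ha b' hb',
      form_comm_zero hG (hNR a' ha' b hb), hRR b hb b' hb']
    simp
  obtain ⟨L, hNL, hLi, hLm⟩ := exists_max hG hA hN'i hN'0
  refine ⟨L, le_sup_left.trans hNL, hLi, hLm, Set.Subset.antisymm ?_ ?_⟩
  · rintro m ⟨⟨y, hyL, hy0, hy⟩, hre⟩
    by_contra hmS
    have hnegS : -m ∈ S := neg_mem_of_maximal hS ⟨y, trivial, hy0, hy⟩ hre hmS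
    have hyg := genEig_of_eigen hy
    have hyy : (form G y y).re = 0 := by
      have e1 := form_mulVec_left hA y y
      have e2 : A *ᵥ y = op m • y := hy
      rw [e2, form_smul_left, form_smul_right, form_self_real hG y] at e1
      have e3 := congrArg QuaternionAlgebra.re e1
      have e4 : m.re * (form G y y).re = -((form G y y).re * m.re) := by simpa using e3
      have : m.re * (form G y y).re = 0 := by linarith
      exact (mul_eq_zero.1 this).resolve_left hre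
    have hall : ∀ x ∈ (⊤ : RSub n), form G x y = 0 := by
      refine decomp (A := A) (N := ⊤) (fun _ _ => Submodule.mem_top) (fun x => form G x y = 0) (by simp)
        (fun x x' hx hx' => by rw [form_add_left, hx, hx', add_zero]) ?_
      intro z x _ hx
      by_cases hz : z ∈ S
      · exact orth_of_neutral hG hLm.1
          (hNL (Submodule.mem_sup_right (Submodule.subset_span ⟨z, hz, hx⟩))) hyL hyy
      · apply form_comm_zero hG
        refine genEig_orth hA (fun q hq => ?_) hyg hx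
        by_contra hne
        apply hz
        rw [solve_sylv hne hq, ← star_neg]
        exact h3 _ (hstar _ hnegS) q hne
    have hGy : G *ᵥ y = 0 := by
      funext i
      have := hall (Pi.single i 1) trivial
      simpa [form, Pi.star_single] using this
    have hAy := hker y hGy
    rw [hy] at hAy
    apply hy0
    funext i
    have hm0 : m ≠ 0 := by rintro rfl; exact hre rfl
    exact (mul_eq_zero.1 (congrFun hAy i)).resolve_right hm0
  · intro c hc
    obtain ⟨x, _, hx0, hx⟩ := h1 hc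
    exact ⟨⟨x, hNL (Submodule.mem_sup_right (Submodule.subset_span ⟨c, hc, genEig_of_eigen hx⟩)),
      hx0, hx⟩, h2 c hc⟩

theorem herm_HA {H A : Matrix (Fin n) (Fin n) ℍ[ℝ]} (hH : Hᴴ = -H) (hA : H * A = -(Aᴴ * H)) :
    (H * A)ᴴ = H * A := by
  rw [conjTranspose_mul, hH, Matrix.mul_neg, ← hA]

theorem skew_HA {H A : Matrix (Fin n) (Fin n) ℍ[ℝ]} (hA : H * A = -(Aᴴ * H)) :
    Aᴴ * (H * A) = -(H * A * A) := by
  rw [← Matrix.mul_assoc, hA]
  simp

theorem ker_HA {H A : Matrix (Fin n) (Fin n) ℍ[ℝ]} (hu : IsUnit H) (y : Fin n → ℍ[ℝ])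
    (h : (H * A) *ᵥ y = 0) : A *ᵥ y = 0 := by
  obtain ⟨u, rfl⟩ := hu
  have : ((u⁻¹ : (Matrix (Fin n) (Fin n) ℍ[ℝ])ˣ) : Matrix (Fin n) (Fin n) ℍ[ℝ]) *ᵥ
      (((u : Matrix (Fin n) (Fin n) ℍ[ℝ]) * A) *ᵥ y) = A *ᵥ y := by
    rw [mulVec_mulVec, ← Matrix.mul_assoc, Units.inv_mul, Matrix.one_mul]
  rw [← this, h, mulVec_zero]

theorem Neutral.neg {G : Matrix (Fin n) (Fin n) ℍ[ℝ]} {N : RSub n} (h : Neutral G N) :
    Neutral (-G) N := fun x hx y hy => by rw [form_neg, h x hx y hy, neg_zero]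

end Pool.Agent.Lib.MP_377342_al
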